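import Mathlib

/-!
# MP_a9cc6a_nt, Q1 : the 3-adic valuation of the central Delannoy numbers

`a n = ∑ k, C(n,k) C(n+k,k)` and `b n = v₃(a n)`.  We prove the conjectured recursion for every `n`.
-/

namespace Pool.Agent.Results.MP_a9cc6a_nt.CentralDelannoyValuation

open Finset Polynomial

/-- `a(n) = ∑_{k=0}^{n} C(n,k) C(n+k,k)`. -/
def a (n : ℕ) : ℕ := ∑ k ∈ range (n + 1), n.choose k * (n + k).choose k

/-- `b(n)` is the exponent of `3` in `a(n)`. -/
def b (n : ℕ) : ℕ := padicValNat 3 (a n)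

lemma a_eq_squares (n : ℕ) : a n = ∑ i ∈ range (n + 1), n.choose i ^ 2 * 2 ^ (n - i) := by
  unfold a
  have h1 : ∀ k ∈ range (n + 1), n.choose k * (n + k).choose k
      = ∑ i ∈ range (n + 1), if i ≤ k then n.choose i ^ 2 * (n - i).choose (k - i) else 0 := by
    intro k hk
    rw [Nat.add_choose_eq, Finset.Nat.sum_antidiagonal_eq_sum_range_succ_mk, Finset.mul_sum]
    have hk' : k < n + 1 := Finset.mem_range.mp hk
    rw [← Finset.sum_filter]
    have hfil : (range (n + 1)).filter (fun i => i ≤ k) = range (k + 1) := by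
      ext i
      simp only [Finset.mem_filter, Finset.mem_range]
      omega
    rw [hfil]
    apply Finset.sum_congr rfl
    intro i hi
    have hi' : i ≤ k := by
      have := Finset.mem_range.mp hi
      omega
    simp only
    rw [Nat.choose_symm hi']
    have := Nat.choose_mul (n := n) (k := k) (s := i) hi'
    calc n.choose k * (n.choose i * k.choose i) = n.choose i * (n.choose k * k.choose i) := by ring
      _ = n.choose i * (n.choose i * (n - i).choose (k - i)) := by rw [this]
      _ = _ := by ring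
  rw [Finset.sum_congr rfl h1, Finset.sum_comm]
  apply Finset.sum_congr rfl
  intro i hi
  have hi' : i ≤ n := by
    have := Finset.mem_range.mp hi
    omega
  rw [← Finset.sum_filter]
  have hfil : (range (n + 1)).filter (fun k => i ≤ k)
      = (range (n - i + 1)).image (fun k => k + i) := by
    ext k
    simp only [Finset.mem_filter, Finset.mem_range, Finset.mem_image]
    constructor
    · rintro ⟨h1, h2⟩
      exact ⟨k - i, by omega, by omega⟩
    · rintro ⟨k', h1, h2⟩
      omega
  rw [hfil, Finset.sum_image (by intro x _ y _ h; simpa using h)]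
  simp only [Nat.add_sub_cancel]
  rw [← Finset.mul_sum, Nat.sum_range_choose]

lemma coeff_two_mul_X_add_one_pow (n j : ℕ) :
    ((1 + C 2 * X : ℕ[X]) ^ n).coeff j = n.choose j * 2 ^ j := by
  have h : (1 + C 2 * X : ℕ[X]) ^ n = ((1 + X : ℕ[X]) ^ n).comp (C 2 * X) := by
    simp
  rw [h, Polynomial.comp_C_mul_X_coeff, Polynomial.coeff_one_add_X_pow]
  simp

lemma a_eq_coeff (n : ℕ) :
    a n = (((1 + X) * (1 + C 2 * X) : ℕ[X]) ^ n).coeff n := by
  rw [a_eq_squares, mul_pow, Polynomial.coeff_mul,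
    Finset.Nat.sum_antidiagonal_eq_sum_range_succ_mk]
  apply Finset.sum_congr rfl
  intro i hi
  have hi' : i ≤ n := by
    have := Finset.mem_range.mp hi
    omega
  rw [coeff_two_mul_X_add_one_pow, Polynomial.coeff_one_add_X_pow, Nat.choose_symm hi']
  simp only [Nat.cast_id]
  ring

/-- The coefficient of `X ^ m` in `(1 + 2 X ^ 2) ^ m`. -/
noncomputable def t (m : ℕ) : ℕ := ((C 2 * X ^ 2 + 1 : ℕ[X]) ^ m).coeff m

lemma t_even (j : ℕ) : t (2 * j) = 2 ^ j * j.centralBinom := by
  unfold t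
  rw [add_pow, Polynomial.finsetSum_coeff]
  rw [Finset.sum_eq_single j]
  · rw [Nat.centralBinom_eq_two_mul_choose]
    simp only [mul_pow, one_pow, mul_one, ← pow_mul, ← C_pow]
    rw [mul_assoc, Polynomial.coeff_C_mul, Polynomial.coeff_mul_natCast, Polynomial.coeff_X_pow]
    simp
  · intro i _ hi
    simp only [mul_pow, one_pow, mul_one, ← pow_mul, ← C_pow]
    rw [mul_assoc, Polynomial.coeff_C_mul, Polynomial.coeff_mul_natCast, Polynomial.coeff_X_pow]
    rw [if_neg (by omega)]
    simp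
  · intro h
    exact absurd (Finset.mem_range.mpr (by omega)) h

lemma t_odd (j : ℕ) : t (2 * j + 1) = 0 := by
  unfold t
  rw [add_pow, Polynomial.finsetSum_coeff]
  apply Finset.sum_eq_zero
  intro i _
  simp only [mul_pow, one_pow, mul_one, ← pow_mul, ← C_pow]
  rw [mul_assoc, Polynomial.coeff_C_mul, Polynomial.coeff_mul_natCast, Polynomial.coeff_X_pow]
  rw [if_neg (by omega)]
  simp

lemma a_eq_t (n : ℕ) :
    a n = ∑ m ∈ range (n + 1), n.choose m * 3 ^ (n - m) * t m := by
  rw [a_eq_coeff]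
  have h : ((1 + X) * (1 + C 2 * X) : ℕ[X]) = (C 2 * X ^ 2 + 1) + C 3 * X := by
    have : (C 3 : ℕ[X]) = C 2 + 1 := by
      rw [← C_1, ← C_add]
      norm_num
    rw [this]
    ring
  rw [h, add_pow, Polynomial.finsetSum_coeff]
  apply Finset.sum_congr rfl
  intro m hm
  have hm' : m ≤ n := by
    have := Finset.mem_range.mp hm
    omega
  rw [Polynomial.coeff_mul_natCast, mul_pow, ← C_pow]
  have : (C 2 * X ^ 2 + 1 : ℕ[X]) ^ m * (C (3 ^ (n - m)) * X ^ (n - m))
      = C (3 ^ (n - m)) * ((C 2 * X ^ 2 + 1 : ℕ[X]) ^ m * X ^ (n - m)) := by ring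
  rw [this, Polynomial.coeff_C_mul]
  have h2 : ((C 2 * X ^ 2 + 1 : ℕ[X]) ^ m * X ^ (n - m)).coeff n = t m := by
    conv_lhs => rw [show n = m + (n - m) by omega]
    rw [show m + (n - m) - m = n - m by omega]
    rw [Polynomial.coeff_mul_X_pow]
    rfl
  rw [h2]
  simp only [Nat.cast_id]
  ring

/-- A sum in which all terms but one are divisible by a higher power of `3`. -/
lemma padicValNat_sum {s : Finset ℕ} {f : ℕ → ℕ} {m0 : ℕ} (hm0 : m0 ∈ s) (h0 : f m0 ≠ 0)
    (h : ∀ m ∈ s, m ≠ m0 → 3 ^ (padicValNat 3 (f m0) + 1) ∣ f m) :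
    padicValNat 3 (∑ m ∈ s, f m) = padicValNat 3 (f m0) := by
  have : Fact (Nat.Prime 3) := ⟨Nat.prime_three⟩
  have hsum : ∑ m ∈ s, f m = f m0 + ∑ m ∈ s.erase m0, f m := by
    rw [Finset.add_sum_erase s f hm0]
  have hR : 3 ^ (padicValNat 3 (f m0) + 1) ∣ ∑ m ∈ s.erase m0, f m := by
    apply Finset.dvd_sum
    intro m hm
    exact h m (Finset.mem_of_mem_erase hm) (Finset.ne_of_mem_erase hm)
  have hne : ∑ m ∈ s, f m ≠ 0 := by
    rw [hsum]; omega
  apply le_antisymm
  · by_contra hlt
    push Not at hlt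
    have h1 : 3 ^ (padicValNat 3 (f m0) + 1) ∣ ∑ m ∈ s, f m :=
      (padicValNat_dvd_iff_le hne).mpr hlt
    rw [hsum] at h1
    have h2 := (Nat.dvd_add_left hR).mp h1
    have h3 := (padicValNat_dvd_iff_le h0).mp h2
    omega
  · apply (padicValNat_dvd_iff_le hne).mp
    rw [hsum]
    exact dvd_add (pow_padicValNat_dvd) (dvd_trans (pow_dvd_pow _ (by omega)) hR)

lemma g_le (i : ℕ) : (2 * i + 1) * i.centralBinom ≤ 6 ^ i := by
  induction i with
  | zero => simp
  | succ i ih =>
    have h := Nat.succ_mul_centralBinom_succ i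
    have h1 : (i + 1) * ((2 * (i + 1) + 1) * (i + 1).centralBinom)
        = 2 * (2 * i + 3) * ((2 * i + 1) * i.centralBinom) := by
      calc (i + 1) * ((2 * (i + 1) + 1) * (i + 1).centralBinom)
          = (2 * (i + 1) + 1) * ((i + 1) * (i + 1).centralBinom) := by ring
        _ = (2 * (i + 1) + 1) * (2 * (2 * i + 1) * i.centralBinom) := by rw [h]
        _ = _ := by ring
    have h2 : 2 * (2 * i + 3) ≤ 6 * (i + 1) := by omega
    have h3 : (i + 1) * ((2 * (i + 1) + 1) * (i + 1).centralBinom) ≤ (i + 1) * 6 ^ (i + 1) := by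
      rw [h1]
      calc 2 * (2 * i + 3) * ((2 * i + 1) * i.centralBinom)
          ≤ 6 * (i + 1) * 6 ^ i := Nat.mul_le_mul h2 ih
        _ = _ := by ring
    exact Nat.le_of_mul_le_mul_left h3 (by omega)

lemma val_g_lt {i : ℕ} (hi : 0 < i) {g : ℕ} (hg0 : g ≠ 0) (hg : g ≤ 6 ^ i) :
    padicValNat 3 g < 2 * i := by
  have h1 : 3 ^ padicValNat 3 g ≤ g := Nat.le_of_dvd (Nat.pos_of_ne_zero hg0) pow_padicValNat_dvd
  by_contra hcon
  push Not at hcon
  have h2 : 3 ^ (2 * i) ≤ 3 ^ padicValNat 3 g := Nat.pow_le_pow_right (by norm_num) hcon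
  have h3 : (6 : ℕ) ^ i < 3 ^ (2 * i) := by
    rw [pow_mul]
    exact Nat.pow_lt_pow_left (by norm_num) (by omega)
  omega

/-- From `T * g = M * Q` with `9 ^ i ∣ Q` and `v₃ g < 2 i` we get `3 ^ (v₃ M + 1) ∣ T`. -/
lemma dvd_of_eq {T g M Q i : ℕ} (hg : g ≠ 0) (hM : M ≠ 0) (hlt : padicValNat 3 g < 2 * i)
    (hQ : 3 ^ (2 * i) ∣ Q) (h : T * g = M * Q) : 3 ^ (padicValNat 3 M + 1) ∣ T := by
  have : Fact (Nat.Prime 3) := ⟨Nat.prime_three⟩
  by_cases hT : T = 0
  · simp [hT]
  have hQ0 : Q ≠ 0 := by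
    rintro rfl
    rw [Nat.mul_zero] at h
    exact (Nat.mul_ne_zero hT hg) h
  have h1 : padicValNat 3 T + padicValNat 3 g = padicValNat 3 M + padicValNat 3 Q := by
    rw [← padicValNat.mul hT hg, ← padicValNat.mul hM hQ0, h]
  have h2 : 2 * i ≤ padicValNat 3 Q := (padicValNat_dvd_iff_le hQ0).mp hQ
  exact (padicValNat_dvd_iff_le hT).mpr (by omega)

lemma choose_even_identity (i j : ℕ) :
    (2 * i + 2 * j).choose (2 * j) * j.centralBinom * i.centralBinom
      = (i + j).centralBinom * (i + j).choose j ^ 2 := by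
  have h1 := Nat.add_choose_mul_factorial_mul_factorial (2 * i) (2 * j)
  have h2 := Nat.add_choose_mul_factorial_mul_factorial i i
  have h3 := Nat.add_choose_mul_factorial_mul_factorial j j
  have h4 := Nat.add_choose_mul_factorial_mul_factorial (i + j) (i + j)
  have h5 := Nat.add_choose_mul_factorial_mul_factorial i j
  rw [← two_mul, ← Nat.centralBinom_eq_two_mul_choose] at h2 h3 h4
  rw [show 2 * (i + j) = 2 * i + 2 * j by ring] at h4
  have hF := Nat.factorial_pos i
  have hG := Nat.factorial_pos j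
  have hpos : 0 < i.factorial ^ 2 * j.factorial ^ 2 := by positivity
  apply Nat.eq_of_mul_eq_mul_right hpos
  calc (2 * i + 2 * j).choose (2 * j) * j.centralBinom * i.centralBinom
        * (i.factorial ^ 2 * j.factorial ^ 2)
      = (2 * i + 2 * j).choose (2 * j) * (i.centralBinom * i.factorial * i.factorial)
        * (j.centralBinom * j.factorial * j.factorial) := by ring
    _ = (i + j).centralBinom * (i + j).factorial * (i + j).factorial := by
        rw [h2, h3, h1, h4]
    _ = _ := by rw [← h5]; ring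

lemma choose_odd_identity (i j : ℕ) :
    (2 * i + 1 + 2 * j).choose (2 * j) * j.centralBinom * ((2 * i + 1) * i.centralBinom)
      = ((2 * (i + j) + 1) * (i + j).centralBinom) * (i + j).choose j ^ 2 := by
  have h1 := Nat.add_choose_mul_factorial_mul_factorial (2 * i + 1) (2 * j)
  have h2 := Nat.add_choose_mul_factorial_mul_factorial i i
  have h3 := Nat.add_choose_mul_factorial_mul_factorial j j
  have h4 := Nat.add_choose_mul_factorial_mul_factorial (i + j) (i + j)
  have h5 := Nat.add_choose_mul_factorial_mul_factorial i j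
  rw [← two_mul, ← Nat.centralBinom_eq_two_mul_choose] at h2 h3 h4
  have h6 : (2 * i + 1).factorial = (2 * i + 1) * (2 * i).factorial := Nat.factorial_succ _
  have h7 : (2 * i + 1 + 2 * j).factorial = (2 * (i + j) + 1) * (2 * (i + j)).factorial := by
    rw [show 2 * i + 1 + 2 * j = 2 * (i + j) + 1 by ring]
    exact Nat.factorial_succ _
  have hF := Nat.factorial_pos i
  have hG := Nat.factorial_pos j
  have hpos : 0 < i.factorial ^ 2 * j.factorial ^ 2 := by positivity
  apply Nat.eq_of_mul_eq_mul_right hpos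
  calc (2 * i + 1 + 2 * j).choose (2 * j) * j.centralBinom * ((2 * i + 1) * i.centralBinom)
        * (i.factorial ^ 2 * j.factorial ^ 2)
      = (2 * i + 1 + 2 * j).choose (2 * j)
        * ((2 * i + 1) * (i.centralBinom * i.factorial * i.factorial))
        * (j.centralBinom * j.factorial * j.factorial) := by ring
    _ = (2 * (i + j) + 1)
        * ((i + j).centralBinom * (i + j).factorial * (i + j).factorial) := by
        rw [h2, h3, ← h6, h1, h7, h4]
    _ = _ := by rw [← h5]; ring

lemma val_two_pow_mul (j : ℕ) {x : ℕ} (hx : x ≠ 0) :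
    padicValNat 3 (2 ^ j * x) = padicValNat 3 x := by
  have : Fact (Nat.Prime 3) := ⟨Nat.prime_three⟩
  rw [padicValNat.mul (by positivity) hx]
  have : padicValNat 3 (2 ^ j) = 0 := by
    apply padicValNat.eq_zero_of_not_dvd
    intro h
    have := Nat.Prime.dvd_of_dvd_pow Nat.prime_three h
    omega
  omega

/-- `v₃(a(2m)) = v₃(C(2m,m))`. -/
lemma b_even (m : ℕ) : b (2 * m) = padicValNat 3 m.centralBinom := by
  unfold b
  have hcb : m.centralBinom ≠ 0 := Nat.centralBinom_ne_zero m
  rw [a_eq_t]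
  have hmain : (2 * m).choose (2 * m) * 3 ^ (2 * m - 2 * m) * t (2 * m)
      = 2 ^ m * m.centralBinom := by
    rw [t_even]; simp
  have key := padicValNat_sum (s := range (2 * m + 1))
    (f := fun k => (2 * m).choose k * 3 ^ (2 * m - k) * t k) (m0 := 2 * m)
    (by simp) (by rw [hmain]; positivity)
    (by
      intro k hk hne
      rw [hmain, val_two_pow_mul m hcb]
      have hk' : k < 2 * m + 1 := Finset.mem_range.mp hk
      rcases Nat.even_or_odd' k with ⟨j, rfl | rfl⟩
      · obtain ⟨i, rfl⟩ : ∃ i, m = i + j := ⟨m - j, by omega⟩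
        have hi : 0 < i := by omega
        rw [t_even]
        have hid := choose_even_identity i j
        have hcbi : i.centralBinom ≠ 0 := Nat.centralBinom_ne_zero i
        have hT : ((2 * i + 2 * j).choose (2 * j) * j.centralBinom * 3 ^ (2 * i))
            * i.centralBinom
            = (i + j).centralBinom * ((i + j).choose j ^ 2 * 3 ^ (2 * i)) := by
          calc ((2 * i + 2 * j).choose (2 * j) * j.centralBinom * 3 ^ (2 * i))
                * i.centralBinom
              = ((2 * i + 2 * j).choose (2 * j) * j.centralBinom * i.centralBinom)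
                * 3 ^ (2 * i) := by ring
            _ = _ := by rw [hid]; ring
        have hle : i.centralBinom ≤ 6 ^ i := by
          have := g_le i
          calc i.centralBinom = 1 * i.centralBinom := by ring
            _ ≤ (2 * i + 1) * i.centralBinom := Nat.mul_le_mul_right _ (by omega)
            _ ≤ 6 ^ i := this
        have hd := dvd_of_eq hcbi hcb (val_g_lt hi hcbi hle) (Dvd.intro_left _ rfl) hT
        rw [show 2 * (i + j) = 2 * i + 2 * j by ring, show 2 * i + 2 * j - 2 * j = 2 * i by omega]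
        calc 3 ^ (padicValNat 3 (i + j).centralBinom + 1)
            ∣ (2 * i + 2 * j).choose (2 * j) * j.centralBinom * 3 ^ (2 * i) := hd
          _ ∣ ((2 * i + 2 * j).choose (2 * j) * j.centralBinom * 3 ^ (2 * i)) * 2 ^ j :=
              dvd_mul_right _ _
          _ = _ := by ring
      · rw [t_odd]; simp)
  rw [key, hmain, val_two_pow_mul m hcb]

/-- `v₃(a(2m+1)) = 1 + v₃((2m+1) C(2m,m))`. -/
lemma b_odd (m : ℕ) : b (2 * m + 1) = 1 + padicValNat 3 ((2 * m + 1) * m.centralBinom) := by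
  have : Fact (Nat.Prime 3) := ⟨Nat.prime_three⟩
  unfold b
  have hcb : (2 * m + 1) * m.centralBinom ≠ 0 :=
    Nat.mul_ne_zero (by omega) (Nat.centralBinom_ne_zero m)
  rw [a_eq_t]
  have hmain : (2 * m + 1).choose (2 * m) * 3 ^ (2 * m + 1 - 2 * m) * t (2 * m)
      = 2 ^ m * (3 * ((2 * m + 1) * m.centralBinom)) := by
    rw [t_even, show 2 * m + 1 - 2 * m = 1 by omega, Nat.choose_succ_self_right]; ring
  have hval : padicValNat 3 (2 ^ m * (3 * ((2 * m + 1) * m.centralBinom)))
      = 1 + padicValNat 3 ((2 * m + 1) * m.centralBinom) := by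
    rw [val_two_pow_mul m (Nat.mul_ne_zero (by norm_num) hcb),
      padicValNat.mul (by norm_num) hcb, padicValNat_self]
  have key := padicValNat_sum (s := range (2 * m + 1 + 1))
    (f := fun k => (2 * m + 1).choose k * 3 ^ (2 * m + 1 - k) * t k) (m0 := 2 * m)
    (by simp only [Finset.mem_range]; omega) (by rw [hmain]; positivity)
    (by
      intro k hk hne
      rw [hmain, hval]
      have hk' : k < 2 * m + 1 + 1 := Finset.mem_range.mp hk
      rcases Nat.even_or_odd' k with ⟨j, rfl | rfl⟩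
      · obtain ⟨i, rfl⟩ : ∃ i, m = i + j := ⟨m - j, by omega⟩
        have hi : 0 < i := by omega
        rw [t_even]
        have hid := choose_odd_identity i j
        have hcbi : (2 * i + 1) * i.centralBinom ≠ 0 :=
          Nat.mul_ne_zero (by omega) (Nat.centralBinom_ne_zero i)
        have hT : ((2 * i + 1 + 2 * j).choose (2 * j) * j.centralBinom * 3 ^ (2 * i))
            * ((2 * i + 1) * i.centralBinom)
            = ((2 * (i + j) + 1) * (i + j).centralBinom)
              * ((i + j).choose j ^ 2 * 3 ^ (2 * i)) := by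
          calc ((2 * i + 1 + 2 * j).choose (2 * j) * j.centralBinom * 3 ^ (2 * i))
                * ((2 * i + 1) * i.centralBinom)
              = ((2 * i + 1 + 2 * j).choose (2 * j) * j.centralBinom
                * ((2 * i + 1) * i.centralBinom)) * 3 ^ (2 * i) := by ring
            _ = _ := by rw [hid]; ring
        have hd := dvd_of_eq hcbi hcb (val_g_lt hi hcbi (g_le i)) (Dvd.intro_left _ rfl) hT
        rw [show 2 * (i + j) + 1 = 2 * i + 1 + 2 * j by ring,
          show 2 * i + 1 + 2 * j - 2 * j = 2 * i + 1 by omega]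
        rw [show 2 * (i + j) + 1 = 2 * i + 1 + 2 * j by ring] at hd
        have h3 := mul_dvd_mul_left 3 hd
        calc 3 ^ (1 + padicValNat 3 ((2 * i + 1 + 2 * j) * (i + j).centralBinom) + 1)
            = 3 * 3 ^ (padicValNat 3 ((2 * i + 1 + 2 * j) * (i + j).centralBinom) + 1) := by
              rw [← pow_succ']; congr 1; ring
          _ ∣ 3 * ((2 * i + 1 + 2 * j).choose (2 * j) * j.centralBinom * 3 ^ (2 * i)) := h3
          _ ∣ (3 * ((2 * i + 1 + 2 * j).choose (2 * j) * j.centralBinom * 3 ^ (2 * i)))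
              * 2 ^ j := dvd_mul_right _ _
          _ = _ := by rw [pow_succ]; ring
      · rw [t_odd]; simp)
  rw [key, hmain, hval]

/-- `c m = v₃(C(2m,m))`. -/
def c (m : ℕ) : ℕ := padicValNat 3 m.centralBinom

/-- `d m = v₃((2m+1) C(2m,m))`. -/
def d (m : ℕ) : ℕ := padicValNat 3 ((2 * m + 1) * m.centralBinom)

lemma d_eq (m : ℕ) : d m = padicValNat 3 (2 * m + 1) + c m := by
  have : Fact (Nat.Prime 3) := ⟨Nat.prime_three⟩
  unfold d c
  rw [padicValNat.mul (by omega) (Nat.centralBinom_ne_zero m)]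

lemma step (m : ℕ) : padicValNat 3 (m + 1) + c (m + 1) = d m := by
  have : Fact (Nat.Prime 3) := ⟨Nat.prime_three⟩
  unfold d c
  rw [← padicValNat.mul (by omega) (Nat.centralBinom_ne_zero (m + 1)),
    Nat.succ_mul_centralBinom_succ]
  have := val_two_pow_mul 1 (x := (2 * m + 1) * m.centralBinom)
    (Nat.mul_ne_zero (by omega) (Nat.centralBinom_ne_zero m))
  rw [← this]
  congr 1
  ring

lemma v_zero {x : ℕ} (h : x % 3 ≠ 0) : padicValNat 3 x = 0 := by
  apply padicValNat.eq_zero_of_not_dvd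
  omega

lemma v_three_mul {x : ℕ} (h : x ≠ 0) : padicValNat 3 (3 * x) = 1 + padicValNat 3 x := by
  have : Fact (Nat.Prime 3) := ⟨Nat.prime_three⟩
  rw [padicValNat.mul (by norm_num) h, padicValNat_self]

lemma c_three_mul_add_one (m : ℕ) : c (3 * m + 1) = c (3 * m) := by
  have h := step (3 * m)
  rw [d_eq, v_zero (x := 3 * m + 1) (by omega), v_zero (x := 2 * (3 * m) + 1) (by omega)] at h
  omega

lemma c_three_mul_add_two' (m : ℕ) :
    c (3 * m + 2) = 1 + padicValNat 3 (2 * m + 1) + c (3 * m) := by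
  have h := step (3 * m + 1)
  rw [d_eq, show 3 * m + 1 + 1 = 3 * m + 2 by ring, v_zero (x := 3 * m + 2) (by omega),
    show 2 * (3 * m + 1) + 1 = 3 * (2 * m + 1) by ring, v_three_mul (by omega),
    c_three_mul_add_one] at h
  omega

lemma c_three_mul (m : ℕ) : c (3 * m) = c m := by
  induction m with
  | zero => simp
  | succ m ih =>
    have h := step (3 * m + 2)
    have h2 := step m
    rw [d_eq] at h h2
    rw [show 3 * m + 2 + 1 = 3 * (m + 1) by ring, v_three_mul (by omega),
      v_zero (x := 2 * (3 * m + 2) + 1) (by omega), c_three_mul_add_two', ih] at h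
    omega

lemma c1 (m : ℕ) : c (3 * m + 1) = c m := by
  rw [c_three_mul_add_one, c_three_mul]

lemma c2 (m : ℕ) : c (3 * m + 2) = 1 + d m := by
  rw [c_three_mul_add_two', c_three_mul, d_eq]; ring

lemma d0 (m : ℕ) : d (3 * m) = c m := by
  rw [d_eq, c_three_mul, v_zero (by omega)]; ring

lemma d1 (m : ℕ) : d (3 * m + 1) = 1 + d m := by
  rw [d_eq, c1, show 2 * (3 * m + 1) + 1 = 3 * (2 * m + 1) by ring, v_three_mul (by omega), d_eq]
  ring

lemma d2 (m : ℕ) : d (3 * m + 2) = 1 + d m := by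
  rw [d_eq, c2, v_zero (by omega)]; ring

lemma b_even' (m : ℕ) : b (2 * m) = c m := b_even m

lemma b_odd' (m : ℕ) : b (2 * m + 1) = 1 + d m := b_odd m

/-- The branch `n ≡ 0 (mod 3)`. -/
lemma branch_zero (q : ℕ) : b (3 * q) = b q + q % 2 := by
  rcases Nat.even_or_odd' q with ⟨m, rfl | rfl⟩
  · rw [show 3 * (2 * m) = 2 * (3 * m) by ring, b_even', b_even', c_three_mul]; omega
  · rw [show 3 * (2 * m + 1) = 2 * (3 * m + 1) + 1 by ring, b_odd', b_odd', d1]; omega

/-- The branch `n ≡ 2 (mod 3)`. -/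
lemma branch_two (q : ℕ) : b (3 * q + 2) = b q + q % 2 := by
  rcases Nat.even_or_odd' q with ⟨m, rfl | rfl⟩
  · rw [show 3 * (2 * m) + 2 = 2 * (3 * m + 1) by ring, b_even', b_even', c1]; omega
  · rw [show 3 * (2 * m + 1) + 2 = 2 * (3 * m + 2) + 1 by ring, b_odd', b_odd', d2]; omega

/-- The branch `n ≡ 1 (mod 3)`. -/
lemma branch_one (q : ℕ) : b (3 * q + 1) = b (q / 3) + 1 := by
  have h0 := branch_zero (q / 3)
  have h2 := branch_two (q / 3)
  rcases Nat.even_or_odd' q with ⟨m, rfl | rfl⟩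
  · have e : b (3 * (2 * m) + 1) = 1 + b (2 * m) := by
      rw [show 3 * (2 * m) + 1 = 2 * (3 * m) + 1 by ring, b_odd', b_even', d0]
    rw [e]
    rcases (by omega : 2 * m = 3 * (2 * m / 3) ∨ 2 * m = 3 * (2 * m / 3) + 1
      ∨ 2 * m = 3 * (2 * m / 3) + 2) with h | h | h
    · rw [← h] at h0; omega
    · obtain ⟨t, ht⟩ : ∃ t, 2 * m / 3 = 2 * t + 1 := ⟨2 * m / 3 / 2, by omega⟩
      rw [ht, b_odd', show m = 3 * t + 2 by omega, b_even', c2]; ring
    · rw [← h] at h2; omega
  · have e : b (3 * (2 * m + 1) + 1) = b (2 * m + 1) := by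
      rw [show 3 * (2 * m + 1) + 1 = 2 * (3 * m + 2) by ring, b_odd', b_even', c2]
    rw [e]
    rcases (by omega : 2 * m + 1 = 3 * ((2 * m + 1) / 3) ∨ 2 * m + 1 = 3 * ((2 * m + 1) / 3) + 1
      ∨ 2 * m + 1 = 3 * ((2 * m + 1) / 3) + 2) with h | h | h
    · rw [← h] at h0; omega
    · obtain ⟨t, ht⟩ : ∃ t, (2 * m + 1) / 3 = 2 * t := ⟨(2 * m + 1) / 3 / 2, by omega⟩
      rw [ht, b_even', show m = 3 * t by omega, b_odd', d0]; ring
    · rw [← h] at h2; omega

/-- **MP_a9cc6a_nt, Q1 holds**: for every `n ≥ 0` the conjectured recursion for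
`b(n) = v₃(∑ C(n,k) C(n+k,k))` is true. -/
theorem result (n : ℕ) :
    b n = if n % 3 = 1 then b (n / 9) + 1 else b (n / 3) + (n / 3) % 2 := by
  rcases (by omega : n = 3 * (n / 3) ∨ n = 3 * (n / 3) + 1 ∨ n = 3 * (n / 3) + 2) with h | h | h
  · rw [if_neg (by omega)]
    conv_lhs => rw [h]
    exact branch_zero _
  · rw [if_pos (by omega)]
    conv_lhs => rw [h]
    rw [branch_one, Nat.div_div_eq_div_mul]
  · rw [if_neg (by omega)]
    conv_lhs => rw [h]
    exact branch_two _

end Pool.Agent.Results.MP_a9cc6a_nt.CentralDelannoyValuation
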